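import Pool.Agent.helper70.SA.Main

/-!
# Touching graphs of unit spheres: a superlinear lower bound for the chromatic number

`χ_n ≥ n^{3/2} / 11` for every `n`, from Kerdock sets of quadratic forms.
-/

namespace Pool.Agent.Results.MP_facb47_co.Superlinear

open Pool.Agent.helper70.Sachs

/-- `χ_n ≥ n^{3/2} / 11` for every `n`, and `χ_n ≥ 2^{2t+1} k / (2^t + 2)` whenever
`n ≥ 4^t + k` and `k ≤ 2^{2t-1}`. -/
theorem result :
    (∀ n c : ℕ, chi n ≤ c → n ^ 3 ≤ 121 * c ^ 2) ∧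
    (∀ t k n c : ℕ, 1 ≤ t → k ≤ 2 ^ (2 * t - 1) → 4 ^ t + k ≤ n → chi n ≤ c →
      2 ^ (2 * t + 1) * k ≤ (2 ^ t + 2) * c) :=
  ⟨fun _ _ hc => lower_bound hc, fun _ _ _ _ ht hk hn hc => main_bound ht hk hn hc⟩

end Pool.Agent.Results.MP_facb47_co.Superlinear
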