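import Pool.Agent.helper52.SP.Asym

/-!
# Touching graphs of unit spheres: a superpolynomial lower bound for the chromatic number

`χ_n ≥ exp((log n)² / (1152 log log n))` for all large `n`. The centres are tuples of polynomials
over a prime field, embedded by the indicator functions of their graphs, from which a random set
without too close pairs is selected; independent sets are counted with the container lemma of
Kleitman and Winston, whose hypothesis follows from the least eigenvalue of the distance graphs
of the Hamming scheme.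
-/

namespace Pool.Agent.Results.MP_facb47_co.Superpolynomial

open Filter Pool.Agent.helper70.Sachs

/-- `χ_n ≥ exp((log n)² / (1152 log log n))` for all large `n`; in particular `χ_n ≥ n^A` for
every `A` and all large `n`; explicitly `χ_n ≥ q^{d/2} / 25` whenever `q` is a prime number with
`64 (12 d)^{6 d} ≤ q` and `q³ ≤ n`. -/
theorem result :
    (∀ᶠ n : ℕ in atTop,
      ((⌈Real.exp (Real.log n ^ 2 / (1152 * Real.log (Real.log n)))⌉₊ : ℕ) : ℕ∞) ≤ chi n) ∧
    (∀ A : ℕ, ∀ᶠ n : ℕ in atTop, ((n ^ A : ℕ) : ℕ∞) ≤ chi n) ∧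
    (∀ q d n c : ℕ, q.Prime → 1 ≤ d → 64 * (12 * d) ^ (6 * d) ≤ q → q ^ 3 ≤ n → chi n ≤ c →
      q ^ d ≤ 625 * c ^ 2) :=
  ⟨Pool.Agent.helper52.SP.quasi, Pool.Agent.helper52.SP.superpoly,
    fun _ _ _ _ hq hd hdq hn hc => Pool.Agent.helper52.SP.main_q hq hd hdq hn hc⟩

end Pool.Agent.Results.MP_facb47_co.Superpolynomial
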