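import Pool.Agent.helper43.TG.Top

/-!
# Touching graphs of unit spheres: an upper bound for the chromatic number

`χ_n ≤ 10^5 τ_n / n` for all `n`, where `τ_n` is the kissing number, and a bound
`C (Δ / log Δ) (1 + sqrt ((n / log Δ) log (2 + n / log Δ)))` for the touching graph of every
packing of unit spheres in which each sphere touches at most `Δ` others. Touching graphs are
locally sparse: `t` points at mutual distance at least `2` inside a sphere of radius `√3` have
few common neighbours, and a count of complete bipartite graphs turns this into a bound for the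
number of edges inside each neighbourhood. Locally sparse graphs are coloured by a theorem of
Alon, Krivelevich and Sudakov, which is proved here by a counting argument.
-/

namespace Pool.Agent.Results.MP_facb47_co.UpperBound

open Pool.Agent.helper70.Sachs Pool.Agent.helper43.TG

/-- `tau n` is the largest size of a kissing configuration of `ℝⁿ`; `χ_n ≤ 10^5 τ_n / n` for all
`n ≥ 1`; and there is a constant `C` such that, for every `n ≥ 1`, every real `Δ ≥ 2` and every
packing `M` of unit spheres in `ℝⁿ` in which each sphere touches at most `Δ` others, the touching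
graph of `M` can be coloured with
`C (Δ / log Δ) (1 + sqrt ((n / log Δ) log (2 + n / log Δ)))` colours. -/
theorem result :
    (∀ n : ℕ, IsGreatest {m : ℕ | ∃ S : Finset (EuclideanSpace ℝ (Fin n)),
      IsKissing S ∧ S.card = m} (tau n)) ∧
    (∀ n : ℕ, 1 ≤ n → chi n ≤ ((⌊(10 : ℝ) ^ 5 * (tau n : ℝ) / (n : ℝ)⌋₊ : ℕ) : ℕ∞)) ∧
    (∃ C : ℝ, ∀ (n : ℕ) (Δ : ℝ) (M : Set (EuclideanSpace ℝ (Fin n))),
      1 ≤ n → 2 ≤ Δ → IsPacking M →
      (∀ x ∈ M, ∀ N : Finset (EuclideanSpace ℝ (Fin n)),
        (∀ y ∈ N, y ∈ M ∧ dist y x = 2) → (N.card : ℝ) ≤ Δ) →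
      (touchingGraph M).Colorable ⌊C * (Δ / Real.log Δ) *
        (1 + Real.sqrt ((n / Real.log Δ) * Real.log (2 + n / Real.log Δ)))⌋₊) :=
  ⟨top_kgr, top_th2, top_th4⟩

end Pool.Agent.Results.MP_facb47_co.UpperBound
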